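import Mathlib

/-!
# The fixed point of `1 → 12122121`, `2 → 2` is not `k`-automatic for any `k`
-/

namespace Pool.Agent.N612.AW

open Set

/-- The words `x_{n+1}` of the problem: `x_1 = 12`, `x_{n+1} = x_n x_n x_n^R x_n^R 2`. -/
def xw : ℕ → List ℕ
  | 0 => [1, 2]
  | n + 1 => xw n ++ xw n ++ (xw n).reverse ++ (xw n).reverse ++ [2]

/-- The infinite word `a` has all the words `x_n` as prefixes. -/
def IsLimit (a : ℕ → ℕ) : Prop := ∀ n i, i < (xw n).length → (xw n)[i]? = some (a i)

/-- The `k`-kernel of a sequence. -/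
def kernel (k : ℕ) (a : ℕ → ℕ) : Set (ℕ → ℕ) :=
  {y | ∃ e j, j < k ^ e ∧ y = fun n => a (k ^ e * n + j)}

/-- A sequence is `k`-automatic if its `k`-kernel is finite. -/
def IsAutomatic (k : ℕ) (a : ℕ → ℕ) : Prop := (kernel k a).Finite

/-- The words `φ^n(1)`. -/
def w : ℕ → List ℕ
  | 0 => [1]
  | n + 1 => (w n ++ [2]) ++ (w n ++ ([2, 2] ++ (w n ++ ([2] ++ w n))))

theorem reverse_w (n : ℕ) : (w n).reverse = w n := by
  induction n with
  | zero => rfl
  | succ n ih => simp [w, ih, List.append_assoc]

theorem xw_eq (n : ℕ) : xw n = w n ++ [2] := by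
  induction n with
  | zero => rfl
  | succ n ih =>
    rw [xw, ih, w]
    simp [reverse_w, List.append_assoc]

theorem length_w (n : ℕ) : (w (n + 1)).length = 4 * (w n).length + 4 := by
  simp [w]; ring

theorem lt_length_w (n : ℕ) : n < (w n).length := by
  induction n with
  | zero => simp [w]
  | succ n ih => rw [length_w]; omega

section

variable {a : ℕ → ℕ} (ha : IsLimit a)

include ha

theorem get_w (n i : ℕ) (hi : i < (w n).length) : (w n)[i]? = some (a i) := by
  have h := ha n i (by rw [xw_eq]; simp; omega)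
  rw [xw_eq, List.getElem?_append_left hi] at h
  exact h

/-- `w_n` occurs at position `m`. -/
def Occ (a : ℕ → ℕ) (n m : ℕ) : Prop := ∀ i < (w n).length, a (m + i) = a i

theorem shift1 (n : ℕ) : Occ a n ((w n).length + 1) := by
  intro i hi
  have h1 := get_w ha (n + 1) ((w n).length + 1 + i) (by rw [length_w]; omega)
  rw [w, List.getElem?_append_right (by simp)] at h1
  have h2 : (w n).length + 1 + i - (w n ++ [2]).length = i := by simp
  rw [h2, List.getElem?_append_left hi, get_w ha n i hi] at h1
  exact (Option.some.inj h1).symm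

theorem shift2 (n : ℕ) : Occ a n (2 * (w n).length + 3) := by
  intro i hi
  have h1 := get_w ha (n + 1) (2 * (w n).length + 3 + i) (by rw [length_w]; omega)
  have h0 : w (n + 1) = (w n ++ [2] ++ w n ++ [2, 2]) ++ (w n ++ ([2] ++ w n)) := by
    simp [w, List.append_assoc]
  rw [h0, List.getElem?_append_right (by simp; omega)] at h1
  have h2 : 2 * (w n).length + 3 + i - (w n ++ [2] ++ w n ++ [2, 2]).length = i := by
    simp; omega
  rw [h2, List.getElem?_append_left hi, get_w ha n i hi] at h1
  exact (Option.some.inj h1).symm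

omit ha in
theorem occ_zero (n : ℕ) : Occ a n 0 := fun i _ => by rw [zero_add]

theorem occ_succ {n m : ℕ} (h : Occ a (n + 1) m) :
    Occ a n m ∧ Occ a n (m + ((w n).length + 1)) ∧ Occ a n (m + (2 * (w n).length + 3)) := by
  refine ⟨?_, ?_, ?_⟩
  · intro i hi
    exact h i (by rw [length_w]; omega)
  · intro i hi
    rw [add_assoc, h _ (by rw [length_w]; omega), shift1 ha n i hi]
  · intro i hi
    rw [add_assoc, h _ (by rw [length_w]; omega), shift2 ha n i hi]

/-- The occurrences of `w_n` hit every residue class. -/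
theorem exists_occ (M : ℕ) [NeZero M] (n : ℕ) (z : ZMod M) : ∃ m : ℕ, Occ a n m ∧ (m : ZMod M) = z := by
  classical
  let S : ℕ → Set (ZMod M) := fun n => {z | ∃ m : ℕ, Occ a n m ∧ (m : ZMod M) = z}
  have hanti : Antitone S := by
    refine antitone_nat_of_succ_le fun n => ?_
    rintro z ⟨m, hm, hz⟩
    exact ⟨m, (occ_succ ha hm).1, hz⟩
  -- stabilization
  obtain ⟨N, hN⟩ : ∃ N, ∀ n, N ≤ n → S n = S N := by
    obtain ⟨N, -, hN⟩ := exists_minimalFor_of_wellFoundedLT (fun _ : ℕ => True)
      (fun n => (S n).ncard) ⟨0, trivial⟩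
    refine ⟨N, fun n hn => ?_⟩
    refine Set.eq_of_subset_of_ncard_le (hanti hn) ?_ (Set.toFinite _)
    by_contra hcon
    push Not at hcon
    exact absurd (hN trivial hcon.le) (not_le.2 hcon)
  have hstep : ∀ z ∈ S N, z + 1 ∈ S N := by
    set c : ZMod M := ((w N).length : ZMod M) with hc
    have h1 : ∀ z ∈ S N, z + (c + 1) ∈ S N := by
      intro z hz
      rw [← hN (N + 1) (Nat.le_succ N)] at hz
      obtain ⟨m, hm, rfl⟩ := hz
      refine ⟨_, (occ_succ ha hm).2.1, ?_⟩
      push_cast
      rfl
    have h2 : ∀ z ∈ S N, z + (2 * c + 3) ∈ S N := by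
      intro z hz
      rw [← hN (N + 1) (Nat.le_succ N)] at hz
      obtain ⟨m, hm, rfl⟩ := hz
      refine ⟨_, (occ_succ ha hm).2.2, ?_⟩
      push_cast
      rfl
    have h3 : ∀ j : ℕ, ∀ z ∈ S N, z + j * (c + 1) ∈ S N := by
      intro j
      induction j with
      | zero => intro z hz; simpa using hz
      | succ j ih =>
        intro z hz
        have := h1 _ (ih z hz)
        convert this using 1
        push_cast
        ring
    intro z hz
    obtain ⟨j, hj⟩ : ∃ j : ℕ, (j : ZMod M) = -2 := ⟨((-2 : ZMod M)).val, ZMod.natCast_zmod_val _⟩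
    have := h2 _ (h3 j z hz)
    rw [hj] at this
    convert this using 1
    ring
  have hall : ∀ j : ℕ, (j : ZMod M) ∈ S N := by
    intro j
    induction j with
    | zero => exact ⟨0, occ_zero N, rfl⟩
    | succ j ih => rw [Nat.cast_succ]; exact hstep _ ih
  have hz : z ∈ S N := by
    have := hall z.val
    rwa [ZMod.natCast_zmod_val] at this
  rcases le_total n N with h | h
  · exact hanti h hz
  · rw [← hN n h] at hz
    exact hz

theorem a_values (i : ℕ) : a i = 1 ∨ a i = 2 := by
  have hw : ∀ n, ∀ x ∈ w n, x = 1 ∨ x = 2 := by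
    intro n
    induction n with
    | zero => intro x hx; simp [w] at hx; exact Or.inl hx
    | succ n ih =>
      intro x hx
      simp only [w, List.mem_append, List.mem_cons, List.not_mem_nil, or_false] at hx
      rcases hx with (hx | hx) | (hx | (hx | hx) | (hx | (hx | hx)))
      · exact ih x hx
      · exact Or.inr hx
      · exact ih x hx
      · exact Or.inr hx
      · exact Or.inr hx
      · exact ih x hx
      · exact Or.inr hx
      · exact ih x hx
  have h := get_w ha i i (lt_length_w i)
  exact hw i (a i) (List.mem_of_getElem? h)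

/-- No shift of a suffix is equal to another suffix. -/
theorem not_shift (j j' : ℕ) (hj : j < j') (h : ∀ i, a (j + i) = a (j' + i)) : False := by
  obtain ⟨p, hp, rfl⟩ : ∃ p, 0 < p ∧ j' = j + p := ⟨j' - j, by omega, by omega⟩
  have : NeZero p := ⟨hp.ne'⟩
  -- `a` is periodic
  have hper : ∀ i, a (i + p) = a i := by
    intro i
    -- an occurrence at a position at least `j`
    set n := i + p + j with hn
    have h1 := shift1 ha n
    have hlt := lt_length_w n
    have h2 := h1 i (by omega)
    have h3 := h1 (i + p) (by omega)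
    rw [← h2, ← h3]
    have h4 := h ((w n).length + 1 + i - j)
    rw [show j + ((w n).length + 1 + i - j) = (w n).length + 1 + i by omega,
      show j + p + ((w n).length + 1 + i - j) = (w n).length + 1 + (i + p) by omega] at h4
    exact h4.symm
  have hper2 : ∀ q i, a (i + p * q) = a i := by
    intro q
    induction q with
    | zero => intro i; simp
    | succ q ih =>
      intro i
      rw [Nat.mul_succ, ← add_assoc, hper, ih]
  obtain ⟨m, hm, hmz⟩ := exists_occ ha p 2 (1 : ZMod p)
  have hm1 : 1 ≤ m ∨ p = 1 := by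
    by_contra hcon
    push Not at hcon
    have h0 : m = 0 := by omega
    rw [h0, Nat.cast_zero] at hmz
    have := (ZMod.natCast_eq_zero_iff 1 p).1 (by rw [Nat.cast_one]; exact hmz.symm)
    exact hcon.2 (Nat.dvd_one.1 this)
  have h01 : a 0 = a 1 := by
    rcases hm1 with hm1 | hp1
    · have hdvd : p ∣ m - 1 := by
        have : ((m - 1 : ℕ) : ZMod p) = 0 := by
          rw [Nat.cast_sub hm1, hmz, Nat.cast_one, sub_self]
        exact (ZMod.natCast_eq_zero_iff _ _).1 this
      obtain ⟨q, hq⟩ := hdvd
      have h5 := hm 0 (lt_of_le_of_lt (Nat.zero_le _) (lt_length_w 2))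
      have h6 := hper2 q 1
      rw [← hq] at h6
      rw [← h5, ← h6]
      congr 1
      omega
    · have := hper 0
      rw [hp1] at this
      exact this.symm
  have h0 := get_w ha 1 0 (by simp [w])
  have h1 := get_w ha 1 1 (by simp [w])
  simp [w] at h0 h1
  rw [← h0, ← h1] at h01
  exact absurd h01 (by norm_num)

theorem not_automatic (k : ℕ) (hk : 2 ≤ k) : ¬ IsAutomatic k a := by
  classical
  intro hfin
  have : Finite (kernel k a) := hfin
  have : NeZero k := ⟨by omega⟩
  -- the signature of `m`
  let sig : ℕ → Set (kernel k a) := fun m => {y | y.1 m = 1}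
  have hsig : ∀ m m', sig m = sig m' → ∀ e j, j < k ^ e → a (k ^ e * m + j) = a (k ^ e * m' + j) := by
    intro m m' h e j hj
    have h1 : (⟨fun n => a (k ^ e * n + j), e, j, hj, rfl⟩ : kernel k a) ∈ sig m ↔
      (⟨fun n => a (k ^ e * n + j), e, j, hj, rfl⟩ : kernel k a) ∈ sig m' := by rw [h]
    simp only [sig, Set.mem_ofPred_eq] at h1
    rcases a_values ha (k ^ e * m + j) with h2 | h2
    · rw [h2, h1.1 h2]
    · rcases a_values ha (k ^ e * m' + j) with h3 | h3
      · rw [h1.2 h3] at h2
        exact absurd h2 (by norm_num)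
      · rw [h2, h3]
  -- for each `e` and `j` an aligned occurrence
  have hocc : ∀ e j : ℕ, ∃ q : ℕ, ∀ i < k ^ e, a (j + i) = a (k ^ e * q + i) := by
    intro e j
    have : NeZero (k ^ e) := ⟨pow_ne_zero _ (NeZero.ne k)⟩
    obtain ⟨m, hm, hmz⟩ := exists_occ ha (k ^ e) (j + k ^ e) (-(j : ZMod (k ^ e)))
    have hdvd : k ^ e ∣ m + j := by
      rw [← ZMod.natCast_eq_zero_iff, Nat.cast_add, hmz, neg_add_cancel]
    obtain ⟨q, hq⟩ := hdvd
    refine ⟨q, fun i hi => ?_⟩
    rw [← hq, add_assoc]
    exact (hm (j + i) (by have := lt_length_w (j + k ^ e); omega)).symm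
  choose q hq using hocc
  -- pigeonhole
  let _ : Fintype (Set (kernel k a)) := Fintype.ofFinite _
  let N := Fintype.card (Set (kernel k a))
  have hpair : ∀ e : ℕ, ∃ P : Fin (N + 1) × Fin (N + 1), P.1 < P.2 ∧
      ∀ i < k ^ e, a (P.1 + i) = a (P.2 + i) := by
    intro e
    obtain ⟨x, y, hxy, hf⟩ := Fintype.exists_ne_map_eq_of_card_lt
      (fun j : Fin (N + 1) => sig (q e j)) (by simp [N])
    have hgen : ∀ x y : Fin (N + 1), sig (q e x) = sig (q e y) →
        ∀ i < k ^ e, a (x + i) = a (y + i) := by
      intro x y h i hi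
      rw [hq e x i hi, hq e y i hi]
      exact hsig _ _ h e i hi
    rcases lt_or_gt_of_ne hxy with h | h
    · exact ⟨(x, y), h, hgen x y hf⟩
    · exact ⟨(y, x), h, hgen y x hf.symm⟩
  choose P hP1 hP2 using hpair
  obtain ⟨R, hR⟩ := Finite.exists_infinite_fiber P
  have hR' : (P ⁻¹' {R}).Infinite := Set.infinite_coe_iff.1 hR
  obtain ⟨e0, he0⟩ := hR'.nonempty
  have he0' : P e0 = R := he0
  refine not_shift ha R.1 R.2 (by rw [← he0']; exact hP1 e0) fun i => ?_
  obtain ⟨e, he, hie⟩ := hR'.exists_gt i
  have he' : P e = R := he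
  have := hP2 e i (lt_trans hie (Nat.lt_pow_self (by omega)))
  rw [he'] at this
  exact this

end

theorem w_prefix (n m : ℕ) (h : n ≤ m) : w n <+: w m := by
  induction m, h using Nat.le_induction with
  | base => exact List.prefix_rfl
  | succ m _ ih =>
    refine ih.trans ?_
    rw [w, List.append_assoc]
    exact List.prefix_append _ _

theorem existsUnique_limit : ∃! a, IsLimit a := by
  refine ⟨fun i => ((w i)[i]?).getD 0, ?_, ?_⟩
  · intro n i hi
    have h1 : xw n <+: w (n + 1) := by
      rw [xw_eq, w]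
      exact List.prefix_append _ _
    have h2 : (xw n)[i]? = (w (n + 1))[i]? := by
      obtain ⟨t, ht⟩ := h1
      rw [← ht, List.getElem?_append_left hi]
    have h3 : (w i)[i]? = (w (max i (n + 1)))[i]? := by
      obtain ⟨t, ht⟩ := w_prefix i (max i (n + 1)) (le_max_left _ _)
      rw [← ht, List.getElem?_append_left (lt_length_w i)]
    have hlt : i < (w (n + 1)).length := lt_of_lt_of_le hi h1.length_le
    have h4 : (w (n + 1))[i]? = (w (max i (n + 1)))[i]? := by
      obtain ⟨t, ht⟩ := w_prefix (n + 1) (max i (n + 1)) (le_max_right _ _)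
      rw [← ht, List.getElem?_append_left hlt]
    change (xw n)[i]? = some (((w i)[i]?).getD 0)
    rw [h2, h4, ← h3, List.getElem?_eq_getElem (lt_length_w i)]
    rfl
  · intro b hb
    funext i
    rw [get_w hb i i (lt_length_w i)]
    rfl

end Pool.Agent.N612.AW
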